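import Pool.Agent.Q46.IP.ToolsS
import Pool.Agent.Q46.SL.Fermat

/-!
# Every even gap between consecutive almost primes on both sides of a square: Fermat quotients

Oppermann's conjecture asks for primes in `(n ^ 2 - n, n ^ 2)` and `(n ^ 2, n ^ 2 + n)`. Let `η = n ^ 2` or `η = n ^ 2 - n` and
let `p` be a prime with `p ^ 2` between `n / 8` and `n / 2`. For every `n` and every even `τ ≤ κ rankin(p ^ 2)` we find in both
intervals consecutive almost primes with difference `τ`, at `η + x` for many integers `x` and for their Fermat quotients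
simultaneously.

Let `p` be a large prime. For all intervals `[A1, A1 + N1)` in `[0, p²)` and `[A2, A2 + N2)` in `[0, p)` with `N1 N2 ≥ p ^ (2 + ε)` there
are many integers `x` in the first interval whose Fermat quotient `(x ^ (p - 1) - 1) / p mod p` lies in the second, and such that
BOTH `x` and its Fermat quotient have the property.

Here the property is, with `y = η + x`: `y` and `y + τ` have at most `R` prime factors, all larger than `M ^ κ`, while EVERY
other integer within distance `κ rankin(M)` of `y` has a prime factor `≤ log M`; `τ` is an arbitrary even integer with `|τ| ≤ κ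
rankin(M)`, `η` is an arbitrary integer, `|η| ≤ M ^ K`, and `rankin(M) = log M log₂ M log₄ M / (log₃ M) ^ 2`. (`M = p ^ 2`)

Design and proof: helper46 (modules `Pool.Agent.Q46.IP.*`, `Pool.Agent.Q46.SL.*`): the Rankin covering argument with holes at the
pattern gives a modulus and a residue class in which everything else near the pattern is covered by the small primes; the sieve is
applied to the vectors of residues in this class, which are equidistributed with a power saving by bounds for exponential sums.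
-/

set_option autoImplicit false

namespace Pool.Agent.Results.MP_bf4c7f_nt.GapsFermatQuotients

open Finset Polynomial Filter
open Pool.Agent.Q46.SL hiding Almost
open Pool.Agent.Q46.IP (LoneS csS evI sysT adm_pair adm_one lone_tupleS lone_pairS lone_oneS)

/-- `n` is not zero and has at most `R` prime factors (counted with multiplicity), all larger than `z` -/
def Almost (z : ℝ) (R : ℕ) (n : ℤ) : Prop :=
  n ≠ 0 ∧ n.natAbs.primeFactorsList.length ≤ R ∧ ∀ q : ℕ, q.Prime → (q : ℤ) ∣ n → z < q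

/-- Rankin's function `log M log₂ M log₄ M / (log₃ M) ^ 2` (iterated logarithms) -/
noncomputable def rankin (M : ℝ) : ℝ :=
  Real.log M * Real.log (Real.log M) * Real.log (Real.log (Real.log (Real.log M))) /
    (Real.log (Real.log (Real.log M))) ^ 2

/-- `y` and `y + τ` have at most `R` prime factors, all larger than `M ^ κ`, and every other integer `y + i` with
`|i| ≤ κ rankin(M)` has a prime factor `≤ log M` -/
def GapAt (τ : ℤ) (κ M : ℝ) (R : ℕ) (y : ℤ) : Prop :=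
  Almost (M ^ κ) R y ∧ Almost (M ^ κ) R (y + τ) ∧
    ∀ i : ℤ, |(i : ℝ)| ≤ κ * rankin M → i ≠ 0 → i ≠ τ → ∃ q : ℕ, q.Prime ∧ (q : ℝ) ≤ Real.log M ∧ (q : ℤ) ∣ y + i

/-- the Fermat quotient: the least residue of `(n^(p-1) - 1) / p` modulo `p` -/
def fermatQuotient (p n : ℕ) : ℕ := (n ^ (p - 1) - 1) / p % p

/-- Every even `τ ≤ κ rankin(p²)` is a gap between almost primes `η + x`, `η + x + τ` for many integers `x` and for their Fermat quotients, uniformly in `η`. -/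
theorem result (K : ℕ) (ε : ℝ) (hε : 0 < ε) (hε1 : ε ≤ 1) :
    ∃ κ : ℝ, 0 < κ ∧ ∃ R p₀ : ℕ, ∀ p : ℕ, p₀ ≤ p → p.Prime → ∀ τ : ℤ, Even τ → |(τ : ℝ)| ≤ κ * rankin ((p : ℝ) ^ 2) → ∀ η : ℤ, |(η : ℝ)| ≤ ((p : ℝ) ^ 2) ^ K → ∀ A1 N1 A2 N2 : ℕ, A1 + N1 ≤ p ^ 2 → A2 + N2 ≤ p → (p : ℝ) ^ (2 + ε) ≤ (N1 : ℝ) * N2 →
      ∃ G : Finset ℕ, ((N1 : ℝ) * N2 / p) * ((p : ℝ) ^ 2) ^ (-ε) ≤ G.card ∧
        ∀ x ∈ G, (A1 ≤ x ∧ x < A1 + N1) ∧ ¬ p ∣ x ∧ (A2 ≤ fermatQuotient p x ∧ fermatQuotient p x < A2 + N2) ∧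
          GapAt τ κ ((p : ℝ) ^ 2) R (η + x) ∧ GapAt τ κ ((p : ℝ) ^ 2) R (η + (fermatQuotient p x)) := by
  obtain ⟨κ, hκ, cc, hcc, p₀, h⟩ := Pool.Agent.Q46.SL.fermat_quotients (LoneS 3 K : PE 2 0 2 × ℤ → ℝ → ℝ → ℤ → Prop)
    (fun k' M => M ^ (-(ε / (2 * (((2 : ℕ) : ℝ) + 1)) * k'))) (fun k' _ => csS 2 2 3 K (ε / (2 * (((2 : ℕ) : ℝ) + 1))) (by positivity) k') ε hε hε1
  obtain ⟨p₁, hp₁8, hp₁, hp₂⟩ := evI hcc hε hκ 2
  refine ⟨κ, hκ, ⌊((((K + 2) * (2 + 1) : ℕ)) : ℝ) / κ⌋₊, max p₁ p₀, ?_⟩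
  intro p hp hpp τ hτ hτκ η hη A1 N1 A2 N2 hA1 hA2 hN
  have hpr0 : (p₁ : ℝ) ≤ p := by exact_mod_cast (le_max_left _ _).trans hp
  have hpr1 : (1 : ℝ) ≤ p := by exact_mod_cast hpp.one_lt.le
  have hpr2 : (p : ℝ) ≤ (p : ℝ) ^ 2 := by nlinarith
  have hpr : (p₁ : ℝ) ≤ (p : ℝ) ^ 2 := by linarith
  obtain ⟨G, hG, hG2⟩ := h p ((le_max_right _ _).trans hp) (sysT ![0, τ] (adm_pair hτ), η) hpp A1 N1 A2 N2 hA1 hA2 hN
  refine ⟨G, le_trans (hp₁ _ hpr _ (by positivity)) hG, ?_⟩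
  intro x hx
  obtain ⟨a1, a2, a3, a4, a5⟩ := hG2 x hx
  refine ⟨a1, a2, a3, lone_pairS hτ hp₁8 hpr hη (hp₂ _ hpr) hτκ a4 ?_, lone_pairS hτ hp₁8 hpr hη (hp₂ _ hpr) hτκ a5 ?_⟩
  · exact_mod_cast (by omega : x ≤ p ^ 2)
  · refine le_trans ?_ hpr2
    exact_mod_cast (Nat.mod_lt _ hpp.pos).le

end Pool.Agent.Results.MP_bf4c7f_nt.GapsFermatQuotients
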