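import Pool.Agent.Q48.RD.Around

/-!
# Patterns of almost primes in both Oppermann intervals, at mirror positions with restricted digits

Let `h 1, …, h k` be nonnegative integers which are divisible by all primes `p ≤ 2 k` (for example `h = (0, 6)`, or `h = (0, 30, 60)`).
For every large `x` we consider the `2 k` numbers `x ^ 2 + m + h j`, `x ^ 2 - m - h j`, where `m ≥ 1` and `m + h j < x`: the first `k` are
in the interval `(x ^ 2, x ^ 2 + x)`, and the other `k` numbers are in the interval `(x ^ 2 - x, x ^ 2)`. For `h = (0, 6)` these are two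
pairs with the difference `6`, one in each of the two intervals.

Let `g ≥ 2` be a base and `K` a large number of digits. For every `i < K` let `A i` be an arbitrary set of digits, such that the number
`|A 0| ⋯ |A (K - 1)|` of the integers `t < g ^ K` whose `i`-th digit belongs to `A i` for all `i < K` is at least `exp (- c K) g ^ K`
(`Rich`). Let `x ≤ g ^ (E K)` and `m₀ ≥ 1` be arbitrary with `m₀ + g ^ K + h j ≤ x` for all `j`, so that the length `g ^ K` of the
interval of the `m = m₀ + t` may be an arbitrarily small power of `x`.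

The number of the `m = m₀ + t` with these `t` for which all `2 k` numbers have at most `r` prime factors, all larger than `g ^ (K / r)`,
is at least `κ V |A 0| ⋯ |A (K - 1)|`, and also at least `κ |A 0| ⋯ |A (K - 1)| / K ^ (2 k)`, unless there is an obvious obstruction
(no digit `d` in `A 0` such that the `2 k` numbers for `m₀ + d` are prime to `g`); the number of the `m = m₀ + t` with these `t` for which
all `2 k` numbers are primes is at most `C V |A 0| ⋯ |A (K - 1)|`. Here `V` is the product of `1 - ν (p) / p` over the primes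
`p ≤ g ^ K`, where `ν (p)` is the number of the `m` modulo `p` such that `p` divides one of the `2 k` numbers, the expected order. The
constants do not depend on `x`, `m₀` and the sets `A i`.
-/

set_option autoImplicit false

namespace Pool.Agent.Results.MP_bf4c7f_nt.PatternsOnBothSides

open Filter Finset
open Pool.Agent.Q315.RD Pool.Agent.Q48.RD

/-- The numbers `x ^ 2 + m + h j` are in `(x ^ 2, x ^ 2 + x)`, the numbers `x ^ 2 - m - h j` are in `(x ^ 2 - x, x ^ 2)`, and all of them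
have the property `Q`. -/
def BothSides {k : ℕ} (h : Fin k → ℕ) (x : ℕ) (Q : ℕ → Prop) (m : ℕ) : Prop :=
  ∀ j, (x ^ 2 < x ^ 2 + (m + h j) ∧ x ^ 2 + (m + h j) < x ^ 2 + x ∧ Q (x ^ 2 + (m + h j))) ∧
    (x ^ 2 - x < x ^ 2 - (m + h j) ∧ x ^ 2 - (m + h j) < x ^ 2 ∧ Q (x ^ 2 - (m + h j)))

/-- The product of `1 - ν (p) / p` over the primes `p ≤ y`, `ν (p)` the number of the zeros modulo `p` of the product of the `2 k`
polynomials `x ^ 2 + h j + X`, `x ^ 2 - h j - X`. -/
noncomputable def V {k : ℕ} (h : Fin k → ℕ) (x y : ℕ) : ℝ := aroundV h (x ^ 2) y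

lemma both_iff {k : ℕ} (h : Fin k → ℕ) (x : ℕ) (Q : ℕ → Prop) (m : ℕ) (hm : 1 ≤ m) (hx : ∀ j, m + h j < x) :
    Around h (x ^ 2) Q m ↔ BothSides h x Q m := by
  have hxx : x ≤ x ^ 2 := Nat.le_self_pow (by norm_num) x
  constructor
  · intro H j
    have := hx j
    exact ⟨⟨by omega, by omega, (H j).1⟩, by omega, by omega, (H j).2⟩
  · intro H j
    exact ⟨(H j).1.2.2, (H j).2.2.2⟩

/-- **Patterns of almost primes in both Oppermann intervals, at mirror positions with restricted digits.** -/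
theorem result {k : ℕ} (hk : 1 ≤ k) (h : Fin k → ℕ) (hh : ∀ p : ℕ, p.Prime → p ≤ 2 * k → ∀ j, p ∣ h j) (E : ℕ) :
    ∃ c : ℝ, 0 < c ∧ ∃ r₀ : ℕ, 2 ≤ r₀ ∧ ∀ r : ℕ, r₀ ≤ r → ∀ g : ℕ, 2 ≤ g → ∃ κ C : ℝ, 0 < κ ∧ 0 < C ∧
      ∀ᶠ K : ℕ in atTop, ∀ x m₀ : ℕ, x ≤ g ^ (E * K) → 1 ≤ m₀ → (∀ j, m₀ + g ^ K + h j ≤ x) →
        ∀ A : ℕ → Finset ℕ, Rich c g K A →
          ((∃ d ∈ A 0, BothSides h x (fun n => n.Coprime g) (m₀ + d)) →
            κ * V h x (g ^ K) * choices K A ≤ count g K A (fun t => BothSides h x (AlmostPrime (g ^ K) r) (m₀ + t)) ∧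
            κ * choices K A / (K : ℝ) ^ (2 * k) ≤ count g K A (fun t => BothSides h x (AlmostPrime (g ^ K) r) (m₀ + t))) ∧
          (count g K A (fun t => BothSides h x Nat.Prime (m₀ + t)) : ℝ) ≤ C * V h x (g ^ K) * choices K A := by
  obtain ⟨c, hc, r₀, hr₀, h1⟩ := around h hh (2 * E)
  refine ⟨c, hc, r₀, hr₀, fun r hr g hg => ?_⟩
  obtain ⟨κ, C, hκ, hC, h2⟩ := h1 r hr g hg
  refine ⟨κ, C, hκ, hC, ?_⟩
  filter_upwards [h2, eventually_ge_atTop 1] with K hK hK1
  intro x m₀ hx hm₀ hm A hA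
  have hgK : 2 ≤ g ^ K := (show 2 ≤ g from hg).trans (Nat.le_self_pow (by omega) g)
  have hm' := hm ⟨0, hk⟩
  have hxx : 2 * x ≤ x ^ 2 := by nlinarith
  have h3 := hK (x ^ 2) m₀
    (by
      calc x ^ 2 ≤ (g ^ (E * K)) ^ 2 := Nat.pow_le_pow_left hx 2
        _ = g ^ (2 * E * K) := by rw [← pow_mul]; congr 1; ring)
    (fun j => by have := hm j; omega) (by omega) A hA
  have e : ∀ (Q : ℕ → Prop) t, t < g ^ K → (Around h (x ^ 2) Q (m₀ + t) ↔ BothSides h x Q (m₀ + t)) := fun Q t ht =>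
    both_iff h x Q (m₀ + t) (by omega) (fun j => by have := hm j; omega)
  obtain ⟨h4, h5⟩ := h3
  have hle : ∀ Q : ℕ → Prop, (count g K A (fun t => Around h (x ^ 2) Q (m₀ + t)) : ℝ) ≤
      count g K A (fun t => BothSides h x Q (m₀ + t)) := fun Q => Nat.cast_le.2 (count_mono fun t ht hQ => (e Q t ht).1 hQ)
  have hge : ∀ Q : ℕ → Prop, (count g K A (fun t => BothSides h x Q (m₀ + t)) : ℝ) ≤
      count g K A (fun t => Around h (x ^ 2) Q (m₀ + t)) := fun Q => Nat.cast_le.2 (count_mono fun t ht hQ => (e Q t ht).2 hQ)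
  refine ⟨fun ⟨d, hd, h6⟩ => ?_, (hge _).trans h5⟩
  have h7 := h4 ⟨d, hd, fun j => ⟨(h6 j).1.2.2, (h6 j).2.2.2⟩⟩
  exact ⟨h7.1.trans (hle _), h7.2.trans (hle _)⟩

end Pool.Agent.Results.MP_bf4c7f_nt.PatternsOnBothSides
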