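import Pool.Agent.Q44.Prog

/-!
# Symmetric progressions of almost primes centred at a square: the laws, for every `x`

Let `s ≥ 1`, `0 < θ`.  For EVERY large `x` without prime factors `≤ 2s` (if a prime `p ≤ s` divides `x`, it divides
`x² + pm`) call `m` good if none of the `2s` numbers `x² ± m, x² ± 2m, ..., x² ± sm` has a prime factor `≤ x ^ (1/r)`; for
`sm < x` these are `s` numbers in `I_x^+` and `s` numbers in `I_x^-`, forming with `x²` a progression of `2s + 1` terms.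
In ALL intervals of length at least `x ^ θ` the numbers of the good `m` in windows follow the Poisson law and the gaps
between the good `m` are exponentially distributed, and almost all elements of an ARBITRARY set of good `m` (for
instance of the `m` for which all `2s` numbers are prime) are regular points of this set.
-/

set_option autoImplicit false

namespace Pool.Agent.Results.MP_bf4c7f_nt.ProgressionsFromBothEnds

open Finset
open Pool.Agent.Q25.UReg (Good V count pois PoissonLaw GapLaw N RightOrder ConstantDensity badScales Irregular)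
open Pool.Agent.Q44.Prog (co ct)

lemma np {s x : ℕ} (h : ∀ p : ℕ, p.Prime → p ≤ 2 * s → ¬ p ∣ x) (p : ℕ) (hp : p.Prime) (hps : p ≤ 2 * s) :
    ¬ p ∣ x ^ 2 * x ^ 2 := by
  intro h1
  rcases (hp.dvd_mul).1 h1 with h2 | h2
  · exact h p hp hps (hp.dvd_of_dvd_pow h2)
  · exact h p hp hps (hp.dvd_of_dvd_pow h2)

lemma sq_le (x : ℕ) : ((x ^ 2 : ℕ) : ℝ) ≤ (x : ℝ) ^ (2 : ℝ) := by
  rw [show (2 : ℝ) = ((2 : ℕ) : ℝ) by norm_num, Real.rpow_natCast]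
  push_cast
  exact le_rfl

/-- **Oppermann's conjecture: symmetric progressions of almost primes centred at `x²`, for every `x`.** -/
theorem result (s : ℕ) (hs : 1 ≤ s) (θ : ℝ) (hθ : 0 < θ) :
    (∀ (l₀ : ℕ) (x₀ ε : ℝ), 0 < ε → ∃ r₀ : ℕ, ∀ r : ℕ, r₀ ≤ r → ∃ x₁ : ℕ, ∀ x : ℕ, x₁ ≤ x →
      (∀ p : ℕ, p.Prime → p ≤ 2 * s → ¬ p ∣ x) → ∀ Z Y : ℕ, (x : ℝ) ^ θ ≤ Y →
        PoissonLaw (co s) (ct s (x ^ 2) (x ^ 2)) r x Z Y x₀ ε ∧
        GapLaw (co s) (ct s (x ^ 2) (x ^ 2)) r x Z Y l₀ x₀ ε) ∧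
    ∃ r₀ : ℕ, ∀ r : ℕ, r₀ ≤ r → ∀ ε : ℝ, 0 < ε → ∃ c : ℝ, 0 < c ∧ ∀ δ : ℝ, 0 < δ → ∃ B x₁ : ℕ,
      ∀ x : ℕ, x₁ ≤ x → (∀ p : ℕ, p.Prime → p ≤ 2 * s → ¬ p ∣ x) →
        ∀ w Y : ℕ, (x : ℝ) ^ θ ≤ Y → Y ≤ x → Y ≤ w →
        ∀ A : Set ℕ, (∀ m ∈ A, Good (co s) (ct s (x ^ 2) (x ^ 2)) r x m) →
          (N (Irregular A (V (co s) (ct s (x ^ 2) (x ^ 2)) r x) c δ B Y) w (w + Y) : ℝ) ≤
            ε * (Y * V (co s) (ct s (x ^ 2) (x ^ 2)) r x) := by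
  constructor
  · intro l₀ x₀ ε hε
    obtain ⟨r₀, h⟩ := Pool.Agent.Q44.Prog.laws s hs 2 1 θ (by norm_num) one_pos hθ l₀ x₀ ε hε
    refine ⟨r₀, fun r hr => ?_⟩
    obtain ⟨X₀, hX₀⟩ := h r hr
    refine ⟨max X₀ (s + 1), fun x hx hnp Z Y hY => ?_⟩
    have hxs : s + 1 ≤ x := (le_max_right _ _).trans hx
    refine hX₀ x ((le_max_left _ _).trans hx) (x ^ 2) (x ^ 2) (np hnp) (Nat.one_le_pow _ _ (by omega))
      (sq_le x) (sq_le x) ?_ Z Y hY
    rw [Real.rpow_one]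
    have h1 : s * x < x ^ 2 + x ^ 2 := by nlinarith
    exact_mod_cast h1
  · obtain ⟨r₀, h⟩ := Pool.Agent.Q44.Prog.reg s hs 2 θ (by norm_num) hθ
    refine ⟨r₀, fun r hr ε hε => ?_⟩
    obtain ⟨c, hc, h1⟩ := h r hr ε hε
    refine ⟨c, hc, fun δ hδ => ?_⟩
    obtain ⟨B, X₀, hB⟩ := h1 δ hδ
    refine ⟨B, max X₀ 1, fun x hx hnp w Y hXY hYX hYu A hA => ?_⟩
    exact hB x ((le_max_left _ _).trans hx) (x ^ 2) (x ^ 2) (np hnp)
      (Nat.one_le_pow _ _ ((le_max_right _ _).trans hx)) (sq_le x) (sq_le x) w Y hXY hYX hYu A hA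

end Pool.Agent.Results.MP_bf4c7f_nt.ProgressionsFromBothEnds
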